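import Pool.Agent.Helper60.WE.Defs
import Pool.Agent.Helper22.Evas.Reduction

/-! From the inductive notion `Depth` of Helper22 to decision trees. -/

set_option autoImplicit false

namespace Pool.Agent.Helper60.WE

open Pool.Agent.Helper22.Evas

variable {n : ℕ}

/-- A function of depth at most `k` has a decision tree of cost at most `k`. -/
theorem exists_tree {k : ℕ} {g : (Fin n → Bool) → Bool} (h : Depth k g) :
    ∃ t : DecisionTree n, t.Computes g ∧ ∀ x, t.queries x ≤ k := by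
  induction h with
  | const m g h => exact ⟨.answer (g fun _ => false), fun x => h _ _, fun x => Nat.zero_le _⟩
  | node m g i _ _ ih0 ih1 =>
    obtain ⟨t₀, h₀, c₀⟩ := ih0
    obtain ⟨t₁, h₁, c₁⟩ := ih1
    refine ⟨.query i t₀ t₁, fun x => ?_, fun x => ?_⟩
    · by_cases hx : x i = true
      · have e : Function.update x i true = x := by rw [← hx]; exact Function.update_eq_self i x
        have := h₁ x
        simp only [DecisionTree.eval, if_pos hx]
        rw [this]; simp only [e]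
      · have hx' : x i = false := by simpa using hx
        have e : Function.update x i false = x := by rw [← hx']; exact Function.update_eq_self i x
        have := h₀ x
        simp only [DecisionTree.eval, if_neg hx]
        rw [this]; simp only [e]
    · simp only [DecisionTree.queries]
      split
      · have := c₁ x; omega
      · have := c₀ x; omega

theorem D_le {k : ℕ} {g : (Fin n → Bool) → Bool} (h : Depth k g) : D g ≤ k := by
  obtain ⟨t, ht, hc⟩ := exists_tree h
  have h1 : D g ≤ t.cost :=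
    Nat.sInf_le (s := {d | ∃ t : DecisionTree n, t.Computes g ∧ t.cost = d}) ⟨t, ht, rfl⟩
  exact h1.trans (Finset.sup_le fun x _ => hc x)

theorem isTransitive_of {f : (Fin n → Bool) → Bool}
    (h : ∀ i j : Fin n, ∃ σ : Equiv.Perm (Fin n), σ i = j ∧ ∀ x : Fin n → Bool, f (x ∘ σ) = f x) :
    IsTransitive f := by
  let G : Subgroup (Equiv.Perm (Fin n)) :=
    { carrier := {σ | ∀ x : Fin n → Bool, f (x ∘ σ) = f x}
      one_mem' := fun x => rfl
      mul_mem' := by
        intro a b ha hb x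
        have e : x ∘ ((a * b : Equiv.Perm (Fin n)) : Fin n → Fin n) = (x ∘ a) ∘ b := rfl
        rw [e, hb, ha]
      inv_mem' := by
        intro a ha x
        have e : x = (x ∘ (a⁻¹ : Equiv.Perm (Fin n))) ∘ a := by
          funext i; simp
        conv_rhs => rw [e]
        rw [ha] }
  refine ⟨G, ⟨fun i j => ?_⟩, fun σ hσ x => hσ x⟩
  obtain ⟨σ, h1, h2⟩ := h i j
  exact ⟨⟨σ, h2⟩, h1⟩

/-- A function without a decision tree of full depth gives, by composition, functions of small decision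
tree complexity. -/
theorem powers {m : ℕ} (hm : 2 ≤ m) {f : (Fin m → Bool) → Bool} (hf : Good f (m - 1)) :
    ∃ ε : ℝ, 0 < ε ∧ ∀ k : ℕ, 1 ≤ k → ∃ F : (Fin (m ^ k) → Bool) → Bool,
      Monotone F ∧ (∃ x y, F x ≠ F y) ∧ IsTransitive F ∧ D F ≤ (m - 1) ^ k ∧
      (D F : ℝ) < ((m ^ k : ℕ) : ℝ) ^ (1 - ε) := by
  have hm1 : (1 : ℝ) ≤ ((m - 1 : ℕ) : ℝ) := by
    have : 1 ≤ m - 1 := by omega
    exact_mod_cast this
  have hmm : ((m - 1 : ℕ) : ℝ) < m := by
    have : m - 1 < m := by omega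
    exact_mod_cast this
  have hm0 : (0 : ℝ) < m := by linarith
  have hlt : Real.log ((m - 1 : ℕ) : ℝ) < Real.log m := Real.log_lt_log (by linarith) hmm
  have hl0 : 0 ≤ Real.log ((m - 1 : ℕ) : ℝ) := Real.log_nonneg hm1
  have hlm : 0 < Real.log m := by linarith
  obtain ⟨ε, hε⟩ : ∃ ε : ℝ, ε = (1 - Real.log ((m - 1 : ℕ) : ℝ) / Real.log m) / 2 := ⟨_, rfl⟩
  have hε0 : 0 < ε := by
    have : Real.log ((m - 1 : ℕ) : ℝ) / Real.log m < 1 := (div_lt_one hlm).mpr hlt
    rw [hε]; linarith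
  refine ⟨ε, hε0, fun k hk => ?_⟩
  obtain ⟨F, hF⟩ := exists_pow hf k
  have hD := D_le hF.depth
  refine ⟨F, hF.mono, ⟨fun _ => false, fun _ => true, by rw [hF.bot, hF.top]; simp⟩,
    isTransitive_of hF.trans, hD, ?_⟩
  have hbase : ((m - 1 : ℕ) : ℝ) < (m : ℝ) ^ (1 - ε) := by
    rw [Real.rpow_def_of_pos hm0]
    refine lt_of_eq_of_lt (Real.exp_log (show (0 : ℝ) < ((m - 1 : ℕ) : ℝ) by linarith)).symm ?_
    apply Real.exp_lt_exp.mpr
    rw [hε]
    have e1 : Real.log m * (1 - (1 - Real.log ((m - 1 : ℕ) : ℝ) / Real.log m) / 2) =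
        (Real.log m + Real.log ((m - 1 : ℕ) : ℝ)) / 2 := by
      field_simp
      ring
    rw [e1]; linarith
  have hlt2 : (((m - 1 : ℕ) : ℝ)) ^ k < ((m : ℝ) ^ (1 - ε)) ^ k :=
    pow_lt_pow_left₀ hbase (by linarith) (by omega)
  have e2 : ((m : ℝ) ^ (1 - ε)) ^ k = (((m ^ k : ℕ) : ℝ)) ^ (1 - ε) := by
    push_cast
    rw [← Real.rpow_natCast, ← Real.rpow_natCast, ← Real.rpow_mul hm0.le, ← Real.rpow_mul hm0.le,
      mul_comm]
  rw [e2] at hlt2
  have h3 : (((m - 1) ^ k : ℕ) : ℝ) = (((m - 1 : ℕ) : ℝ)) ^ k := by push_cast; rfl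
  have h4 : (D F : ℝ) ≤ (((m - 1) ^ k : ℕ) : ℝ) := by exact_mod_cast hD
  rw [h3] at h4
  exact lt_of_le_of_lt h4 hlt2

end Pool.Agent.Helper60.WE
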