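import Mathlib

/-! Boolean functions, deterministic decision trees and their complexity, in the words of the problem
`MP_d4e2f9_lc`. -/

set_option autoImplicit false

namespace Pool.Agent.Helper60.WE

/-- A deterministic decision tree for inputs with `n` bits: a leaf gives an answer, an inner node
queries the bit number `i` and goes on with the tree `t₁` if this bit is `true` and with the tree `t₀`
if it is `false`. -/
inductive DecisionTree (n : ℕ) : Type
  | answer (b : Bool) : DecisionTree n
  | query (i : Fin n) (t₀ t₁ : DecisionTree n) : DecisionTree n

namespace DecisionTree

variable {n : ℕ}

/-- The answer which the tree gives on the input `x`. -/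
def eval : DecisionTree n → (Fin n → Bool) → Bool
  | answer b, _ => b
  | query i t₀ t₁, x => if x i = true then t₁.eval x else t₀.eval x

/-- The number of queries which the tree makes on the input `x`. -/
def queries : DecisionTree n → (Fin n → Bool) → ℕ
  | answer _, _ => 0
  | query i t₀ t₁, x => (if x i = true then t₁.queries x else t₀.queries x) + 1

/-- The tree computes the Boolean function `f`. -/
def Computes (t : DecisionTree n) (f : (Fin n → Bool) → Bool) : Prop :=
  ∀ x, t.eval x = f x

/-- The maximum number of queries made on any input. -/
def cost (t : DecisionTree n) : ℕ := Finset.univ.sup t.queries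

end DecisionTree

/-- The deterministic decision tree complexity of `f`: the minimum of the costs of the decision trees
which compute `f` (there are such trees, `exists_computes`, so that the minimum is attained,
`exists_cost_eq`). -/
noncomputable def D {n : ℕ} (f : (Fin n → Bool) → Bool) : ℕ :=
  sInf {d | ∃ t : DecisionTree n, t.Computes f ∧ t.cost = d}

/-- The function `f` is transitive: some group of permutations of the variables acts transitively on
the variables and leaves `f` invariant. -/
def IsTransitive {n : ℕ} (f : (Fin n → Bool) → Bool) : Prop :=
  ∃ G : Subgroup (Equiv.Perm (Fin n)), MulAction.IsPretransitive G (Fin n) ∧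
    ∀ σ ∈ G, ∀ x : Fin n → Bool, f (x ∘ σ) = f x

/-- Every Boolean function is computed by a decision tree. -/
theorem exists_computes {n : ℕ} (f : (Fin n → Bool) → Bool) :
    ∃ t : DecisionTree n, t.Computes f := by
  classical
  -- query all variables of a finite set of variables on which the function depends
  have key : ∀ (S : Finset (Fin n)) (g : (Fin n → Bool) → Bool),
      (∀ x y, (∀ i ∈ S, x i = y i) → g x = g y) → ∃ t : DecisionTree n, t.Computes g := by
    intro S
    induction S using Finset.induction_on with
    | empty =>
      intro g hg
      exact ⟨.answer (g fun _ => false), fun x => hg _ _ (by simp)⟩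
    | insert a S ha ih =>
      intro g hg
      obtain ⟨t₀, h₀⟩ := ih (fun x => g (Function.update x a false)) (by
        intro x y hxy
        refine hg _ _ fun i hi => ?_
        rcases Finset.mem_insert.1 hi with rfl | hi
        · simp
        · by_cases hia : i = a
          · subst hia; simp
          · rw [Function.update_of_ne hia, Function.update_of_ne hia, hxy i hi])
      obtain ⟨t₁, h₁⟩ := ih (fun x => g (Function.update x a true)) (by
        intro x y hxy
        refine hg _ _ fun i hi => ?_
        rcases Finset.mem_insert.1 hi with rfl | hi
        · simp
        · by_cases hia : i = a
          · subst hia; simp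
          · rw [Function.update_of_ne hia, Function.update_of_ne hia, hxy i hi])
      refine ⟨.query a t₀ t₁, fun x => ?_⟩
      by_cases hx : x a = true
      · have e : Function.update x a true = x := by rw [← hx]; exact Function.update_eq_self a x
        have := h₁ x
        simp only [DecisionTree.eval, if_pos hx]
        rw [this]; simp only [e]
      · have hx' : x a = false := by simpa using hx
        have e : Function.update x a false = x := by rw [← hx']; exact Function.update_eq_self a x
        have := h₀ x
        simp only [DecisionTree.eval, if_neg hx]
        rw [this]; simp only [e]
  exact key Finset.univ f fun x y h => by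
    have : x = y := funext fun i => h i (Finset.mem_univ i)
    rw [this]

/-- The minimum in the definition of `D f` is attained. -/
theorem exists_cost_eq {n : ℕ} (f : (Fin n → Bool) → Bool) :
    ∃ t : DecisionTree n, t.Computes f ∧ t.cost = D f := by
  obtain ⟨t, ht⟩ := exists_computes f
  exact Nat.sInf_mem (s := {d | ∃ t : DecisionTree n, t.Computes f ∧ t.cost = d}) ⟨t.cost, t, ht, rfl⟩

end Pool.Agent.Helper60.WE
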