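import Pool.Agent.Helper60.WE.Bridge
import Pool.Agent.Lead.Ek.Grp
import Pool.Agent.Helper83.Ek.Cert

/-! The weak evasiveness conjecture fails. -/

set_option autoImplicit false

namespace Pool.Agent.Helper60.WE

theorem main : ∃ (m : ℕ) (ε : ℝ), 2 ≤ m ∧ 0 < ε ∧ ∀ k : ℕ, 1 ≤ k →
    ∃ f : (Fin (m ^ k) → Bool) → Bool, Monotone f ∧ (∃ x y, f x ≠ f y) ∧ IsTransitive f ∧
      D f ≤ (m - 1) ^ k ∧ (D f : ℝ) < ((m ^ k : ℕ) : ℝ) ^ (1 - ε) := by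
  classical
  obtain ⟨n, hn⟩ := Pool.Agent.Helper83.Ek.cert
  obtain ⟨G, i1, i2, i3, K, hK, hI, h0, hu, hNE⟩ :=
    Pool.Agent.Lead.Ek.exists_invariant_NE' (B := Fin 13) Pool.Agent.Lead.Ek.rel
      Pool.Agent.Lead.Ek.linv_rel Pool.Agent.Lead.Ek.univ_rel n
      (by rw [Pool.Agent.Lead.Ek.dowR_rel]; exact hn)
      (by rw [Pool.Agent.Lead.Ek.dowR_rel]; exact Pool.Agent.Lead.Ek.cx_N0)
  obtain ⟨m, hm, f, hf⟩ := Pool.Agent.Lead.Ek.final_of_NE hK hI h0 hu hNE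
  obtain ⟨ε, hε, h⟩ := powers hm hf
  exact ⟨m, ε, hm, hε, h⟩

end Pool.Agent.Helper60.WE
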